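import Mathlib
import Pool.Agent.Helper28.Ball.Main

/-!
A degree bound for rational proper maps of balls in terms of negative squares.
-/

namespace Pool.Agent.Results.MP_628424_an.DegreeBound

open MvPolynomial Pool.Agent.Helper28.Ball

/-- Let `p / q` be a rational proper map of the ball of `ℂ^n` (`n ≥ 2`) to the ball of `ℂ^N`, in
lowest terms, of degree `d ≥ 1`, and suppose that the Hermitian quotient
`(|q|² - ‖p‖²) / (1 - ‖z‖²)` is a difference of sums of `a` and `b` squared moduli of polynomials.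
Then `(n - 1) d + 1 ≤ N + (n - 1) b`, that is `d ≤ (N - 1) / (n - 1) + b`. -/
theorem result (n N d a b : ℕ) (hn : 2 ≤ n) (hd : 1 ≤ d)
    (p : Fin N → MvPolynomial (Fin n) ℂ) (q : MvPolynomial (Fin n) ℂ)
    (hf : IsProperMap p q) (hdeg : mapDegree p q = d)
    (g : Fin a → MvPolynomial (Fin n) ℂ) (h : Fin b → MvPolynomial (Fin n) ℂ)
    (hK : ∀ z : Fin n → ℂ, ‖eval z q‖ ^ 2 - ∑ j, ‖eval z (p j)‖ ^ 2 =
      (1 - ∑ i, ‖z i‖ ^ 2) * (∑ j, ‖eval z (g j)‖ ^ 2 - ∑ j, ‖eval z (h j)‖ ^ 2)) :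
    (n - 1) * d + 1 ≤ N + (n - 1) * b :=
  bound_general (by omega) hd p q hf hdeg g h hK

end Pool.Agent.Results.MP_628424_an.DegreeBound
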