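import Mathlib
import Pool.Agent.Helper69.DC.Final5

/-!
Proper maps between balls of one degree lower, in all the ranges of `(n, N)` reached.
-/

namespace Pool.Agent.Results.MP_628424_an.DescentOfDegree

open MvPolynomial Pool.Agent.Helper28.Ball

/-- Let `n ≥ 3` and `N < n²`, or `n ≥ 5` and `N < C(n + 2, 3)`, or `n > 16 K²` and
`N < C(n + K, K + 1)` for some `K ≥ 2`. Let `p / q` be a rational proper map of the ball of `ℂ^n` to
the ball of `ℂ^N`, in lowest terms, of degree `d > 1`. Then there is a proper monomial map of the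
ball of `ℂ^n` to the ball of `ℂ^N` of degree exactly `d - 1`. -/
theorem result (n N d : ℕ)
    (hN : 3 ≤ n ∧ N < n ^ 2 ∨ 5 ≤ n ∧ N < (n + 2).choose 3 ∨
      ∃ K, 2 ≤ K ∧ 16 * K ^ 2 < n ∧ N < (n + K).choose (K + 1)) (hd : 1 < d)
    (p : Fin N → MvPolynomial (Fin n) ℂ) (q : MvPolynomial (Fin n) ℂ)
    (hf : IsProperMap p q) (hdeg : mapDegree p q = d) :
    ∃ p' : Fin N → MvPolynomial (Fin n) ℂ, IsProperMap p' 1 ∧
      (∀ j, ∃ (α : Fin n →₀ ℕ) (c : ℂ), p' j = monomial α c) ∧ mapDegree p' 1 = d - 1 :=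
  Pool.Agent.Helper69.DC.descentAll n N d hN hd p q hf hdeg

end Pool.Agent.Results.MP_628424_an.DescentOfDegree
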