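import Mathlib
import Pool.Agent.Helper28.Ball.Main

/-!
Degree descent for rational proper maps of balls with few negative squares.
-/

namespace Pool.Agent.Results.MP_628424_an.FewNegativeSquares

open MvPolynomial Pool.Agent.Helper28.Ball

/-- Let `p / q` be a rational proper map of the ball of `ℂ^n` (`n ≥ 2`) to the ball of `ℂ^N`, in
lowest terms, of degree `d > 1`, and let `b` be a number of negative squares of the Hermitian
quotient `(|q|² - ‖p‖²) / (1 - ‖z‖²)`. If `b ≤ 1`, or `n = 2` and `b ≤ N - 1`, then there is a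
proper monomial map of degree `d - 1` between the same balls. -/
theorem result (n N d a b : ℕ) (hn : 2 ≤ n) (hd : 1 < d)
    (p : Fin N → MvPolynomial (Fin n) ℂ) (q : MvPolynomial (Fin n) ℂ)
    (hf : IsProperMap p q) (hdeg : mapDegree p q = d)
    (g : Fin a → MvPolynomial (Fin n) ℂ) (h : Fin b → MvPolynomial (Fin n) ℂ)
    (hK : ∀ z : Fin n → ℂ, ‖eval z q‖ ^ 2 - ∑ j, ‖eval z (p j)‖ ^ 2 =
      (1 - ∑ i, ‖z i‖ ^ 2) * (∑ j, ‖eval z (g j)‖ ^ 2 - ∑ j, ‖eval z (h j)‖ ^ 2))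
    (hb : b ≤ 1 ∨ (n = 2 ∧ b + 1 ≤ N)) :
    ∃ p' : Fin N → MvPolynomial (Fin n) ℂ, IsProperMap p' 1 ∧
      (∀ j, ∃ (α : Fin n →₀ ℕ) (c : ℂ), p' j = monomial α c) ∧ mapDegree p' 1 = d - 1 :=
  descent (by omega) hd p q hf hdeg g h hK hb

end Pool.Agent.Results.MP_628424_an.FewNegativeSquares
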