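import Mathlib
import Pool.Agent.Helper69.DC.Final5

/-!
A degree bound for rational proper maps between balls, linear in the target dimension.
-/

namespace Pool.Agent.Results.MP_628424_an.LinearDegreeBound

open MvPolynomial Pool.Agent.Helper28.Ball

/-- Let `p / q` be a rational proper map of the ball of `ℂ^n` (`n ≥ 2`) to the ball of `ℂ^N`, in
lowest terms, of degree `d ≥ 1`, and let `a ≥ 1`. If `N < C(n + a - 1, a) + C(n + 2a - 1, 2a + 1)`
then `(n - 1) d ≤ a (N - 1)`. For `a = 1` this sharp bound `d ≤ (N - 1) / (n - 1)` holds also for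
`n ≥ 5`, `N < C(n + 2, 3)` and for `n > 16 K²`, `N < C(n + K, K + 1)`, `K ≥ 2`. -/
theorem result (n N d a : ℕ) (hn : 2 ≤ n) (ha : 1 ≤ a)
    (hN : N < (n + a - 1).choose a + (n + 2 * a - 1).choose (2 * a + 1) ∨
      a = 1 ∧ (5 ≤ n ∧ N < (n + 2).choose 3 ∨
        ∃ K, 2 ≤ K ∧ 16 * K ^ 2 < n ∧ N < (n + K).choose (K + 1))) (hd : 1 ≤ d)
    (p : Fin N → MvPolynomial (Fin n) ℂ) (q : MvPolynomial (Fin n) ℂ)
    (hf : IsProperMap p q) (hdeg : mapDegree p q = d) : (n - 1) * d ≤ a * (N - 1) :=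
  Pool.Agent.Helper69.DC.boundAll n N d a hn ha hN hd p q hf hdeg

end Pool.Agent.Results.MP_628424_an.LinearDegreeBound
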